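import Mathlib

set_option autoImplicit false

/-!
# Combinatorial core of the slit construction

`K` apexes `x = 0, ..., K-1` and columns `r = 0, ..., K-2`; the column `r` is joined to the apexes
`r` and `r + 1`.  `th x` is the type of an apex, `a x` its index, `s r` the position of a column.
-/

namespace Pool.Agent.Lib.MP_832c97_co.Slit

/-- Between two apexes of one type there is no apex of a larger type; first half. -/
private lemma no_larger_right (K D B : ℕ) (th : ℕ → ℕ) (a s : ℕ → ℤ)
    (hB : (2 * K + 1) * D < B)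
    (hinj : ∀ x y : ℕ, x < K → y < K → x ≠ y → th x = th y → a x ≠ a y)
    (F2 : ∀ r r' x x' : ℕ, r + 1 < K → r' + 1 < K → (x = r ∨ x = r + 1) →
      (x' = r' ∨ x' = r' + 1) → th x = th x' → s r < s r' → a x' ≤ a x)
    (F3 : ∀ r r' x x' : ℕ, r + 1 < K → r' + 1 < K → (x = r ∨ x = r + 1) →
      (x' = r' ∨ x' = r' + 1) → th x = th x' → s r < s r' →
      s r' - s r ≤ (D : ℤ) * (B : ℤ) ^ th x)
    (F4 : ∀ r : ℕ, r + 2 < K → (B : ℤ) ^ th (r + 1) ≤ |s (r + 1) - s r|)
    (α β γ : ℕ) (hαβ : α ≤ β) (hβγ : β + 1 < γ) (hγ : γ < K) (hαγ : th α = th γ)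
    (hmax : ∀ x, α < x → x < γ → th x ≤ th (β + 1)) (hlt : th α < th (β + 1))
    (huv : s β < s (β + 1)) : False := by
  obtain ⟨j, hj⟩ : ∃ j, th (β + 1) = j + 1 := ⟨th (β + 1) - 1, by omega⟩
  have hB0 : 0 < B := by omega
  have hBZ : (1 : ℤ) ≤ (B : ℤ) := by exact_mod_cast hB0
  set W : ℤ := (D : ℤ) * (B : ℤ) ^ j with hW
  have hWnn : 0 ≤ W := by positivity
  have hpow : ∀ t : ℕ, t ≤ j → (D : ℤ) * (B : ℤ) ^ t ≤ W := by
    intro t ht
    exact mul_le_mul_of_nonneg_left (pow_le_pow_right₀ hBZ ht) (by positivity)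
  have hBj : (2 * (K : ℤ) + 1) * W < (B : ℤ) ^ (j + 1) := by
    have h1 : ((2 * (K : ℤ) + 1) * D) < B := by exact_mod_cast hB
    have h2 : (0 : ℤ) < (B : ℤ) ^ j := by positivity
    calc (2 * (K : ℤ) + 1) * W = ((2 * (K : ℤ) + 1) * D) * (B : ℤ) ^ j := by rw [hW]; ring
      _ < B * (B : ℤ) ^ j := by exact mul_lt_mul_of_pos_right h1 h2
      _ = (B : ℤ) ^ (j + 1) := by ring
  have hgap : (2 * (K : ℤ) + 1) * W < s (β + 1) - s β := by
    have h1 := F4 β (by omega)
    rw [hj] at h1
    rw [abs_of_pos (by linarith)] at h1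
    linarith
  -- to the right
  have hR : ∀ m : ℕ, β + 1 + m < γ → s (β + 1) - m * W ≤ s (β + 1 + m) := by
    intro m
    induction m with
    | zero => intro _; simp
    | succ m ih =>
      intro hm
      have ih' := ih (by omega)
      set x := β + 1 + m + 1 with hx
      have hx' : β + 1 + (m + 1) = x := by omega
      rw [hx']
      have hmK : (m : ℤ) ≤ K := by
        have : m ≤ K := by omega
        exact_mod_cast this
      have hmW : (m : ℤ) * W ≤ K * W := mul_le_mul_of_nonneg_right hmK hWnn
      have hth := hmax x (by omega) (by omega)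
      rcases Nat.lt_or_ge (th x) (j + 1) with h1 | h1
      · by_cases h2 : s x < s (β + 1 + m)
        · have h3 := F3 x (β + 1 + m) x x (by omega) (by omega) (Or.inl rfl) (Or.inr rfl) rfl h2
          have h4 := hpow (th x) (by omega)
          push_cast
          linarith
        · push Not at h2
          push_cast
          linarith
      · have h2 : th x = th (β + 1) := by omega
        have hne := hinj x (β + 1) (by omega) (by omega) (by omega) h2
        rcases lt_or_gt_of_ne hne with h3 | h3
        · by_cases h4 : s x < s (β + 1)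
          · have h5 := F2 x (β + 1) x (β + 1) (by omega) (by omega) (Or.inl rfl) (Or.inl rfl) h2 h4
            linarith
          · push Not at h4
            have : 0 ≤ ((m + 1 : ℕ) : ℤ) * W := by positivity
            linarith
        · exfalso
          have h6 : s (β + 1 + m) ≤ s β := by
            by_contra h4
            push Not at h4
            have h5 := F2 β (β + 1 + m) (β + 1) x (by omega) (by omega) (Or.inr rfl)
              (Or.inr rfl) h2.symm h4
            linarith
          nlinarith
  -- to the left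
  have hL : ∀ m : ℕ, ∀ y : ℕ, y + m = β → α ≤ y → s y ≤ s β + m * W := by
    intro m
    induction m with
    | zero =>
      intro y hy _
      have : y = β := by omega
      rw [this]; simp
    | succ m ih =>
      intro y hy hαy
      have ih' := ih (y + 1) (by omega) (by omega)
      have hmK : (m : ℤ) ≤ K := by
        have : m ≤ K := by omega
        exact_mod_cast this
      have hmW : (m : ℤ) * W ≤ K * W := mul_le_mul_of_nonneg_right hmK hWnn
      have hth := hmax (y + 1) (by omega) (by omega)
      rcases Nat.lt_or_ge (th (y + 1)) (j + 1) with h1 | h1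
      · by_cases h2 : s (y + 1) < s y
        · have h3 := F3 (y + 1) y (y + 1) (y + 1) (by omega) (by omega) (Or.inl rfl)
            (Or.inr rfl) rfl h2
          have h4 := hpow (th (y + 1)) (by omega)
          push_cast
          linarith
        · push Not at h2
          push_cast
          linarith
      · have h2 : th (y + 1) = th (β + 1) := by omega
        have hne := hinj (y + 1) (β + 1) (by omega) (by omega) (by omega) h2
        rcases lt_or_gt_of_ne hne with h3 | h3
        · exfalso
          have h6 : s (β + 1) ≤ s (y + 1) := by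
            by_contra h4
            push Not at h4
            have h5 := F2 (y + 1) (β + 1) (y + 1) (β + 1) (by omega) (by omega) (Or.inl rfl)
              (Or.inl rfl) h2 h4
            linarith
          nlinarith
        · by_cases h4 : s β < s y
          · have h5 := F2 β y (β + 1) (y + 1) (by omega) (by omega) (Or.inr rfl)
              (Or.inr rfl) h2.symm h4
            linarith
          · push Not at h4
            have : 0 ≤ ((m + 1 : ℕ) : ℤ) * W := by positivity
            linarith
  have e1 := hR (γ - 1 - (β + 1)) (by omega)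
  have e2 : β + 1 + (γ - 1 - (β + 1)) = γ - 1 := by omega
  rw [e2] at e1
  have e3 := hL (β - α) α (by omega) le_rfl
  have e4 : ((γ - 1 - (β + 1) : ℕ) : ℤ) * W ≤ K * W := by
    apply mul_le_mul_of_nonneg_right _ hWnn
    have : γ - 1 - (β + 1) ≤ K := by omega
    exact_mod_cast this
  have e5 : ((β - α : ℕ) : ℤ) * W ≤ K * W := by
    apply mul_le_mul_of_nonneg_right _ hWnn
    have : β - α ≤ K := by omega
    exact_mod_cast this
  have e6 : W < s (γ - 1) - s α := by nlinarith
  have e7 := F3 α (γ - 1) α γ (by omega) (by omega) (Or.inl rfl) (Or.inr (by omega)) hαγ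
    (by linarith)
  have e8 := hpow (th α) (by omega)
  linarith

/-- Between two apexes of one type there is no apex of a larger type. -/
private lemma no_larger (K D B : ℕ) (th : ℕ → ℕ) (a s : ℕ → ℤ)
    (hB : (2 * K + 1) * D < B)
    (hinj : ∀ x y : ℕ, x < K → y < K → x ≠ y → th x = th y → a x ≠ a y)
    (F2 : ∀ r r' x x' : ℕ, r + 1 < K → r' + 1 < K → (x = r ∨ x = r + 1) →
      (x' = r' ∨ x' = r' + 1) → th x = th x' → s r < s r' → a x' ≤ a x)
    (F3 : ∀ r r' x x' : ℕ, r + 1 < K → r' + 1 < K → (x = r ∨ x = r + 1) →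
      (x' = r' ∨ x' = r' + 1) → th x = th x' → s r < s r' →
      s r' - s r ≤ (D : ℤ) * (B : ℤ) ^ th x)
    (F4 : ∀ r : ℕ, r + 2 < K → (B : ℤ) ^ th (r + 1) ≤ |s (r + 1) - s r|)
    (α b γ : ℕ) (hαb : α < b) (hbγ : b < γ) (hγ : γ < K) (hαγ : th α = th γ) :
    th b ≤ th α := by
  by_contra hcon
  push Not at hcon
  obtain ⟨b', hb', hmax⟩ := Finset.exists_max_image (Finset.Ioo α γ) th
    ⟨b, Finset.mem_Ioo.mpr ⟨hαb, hbγ⟩⟩
  rw [Finset.mem_Ioo] at hb'
  have hmax' : ∀ x, α < x → x < γ → th x ≤ th b' := fun x h1 h2 =>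
    hmax x (Finset.mem_Ioo.mpr ⟨h1, h2⟩)
  have hlt : th α < th b' := lt_of_lt_of_le hcon (hmax' b hαb hbγ)
  obtain ⟨β, rfl⟩ : ∃ β, b' = β + 1 := ⟨b' - 1, by omega⟩
  have h4 := F4 β (by omega)
  have hB0 : 0 < B := by omega
  have hpos : (0 : ℤ) < (B : ℤ) ^ th (β + 1) := by positivity
  rcases lt_trichotomy (s β) (s (β + 1)) with h | h | h
  · exact no_larger_right K D B th a s hB hinj F2 F3 F4 α β γ (by omega) (by omega) hγ hαγ
      hmax' hlt h
  · rw [h, sub_self, abs_zero] at h4
    linarith
  · refine no_larger_right K D B th (fun x => - a x) (fun x => - s x) hB ?_ ?_ ?_ ?_ α β γ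
      (by omega) (by omega) hγ hαγ hmax' hlt ?_
    · intro x y hx hy hxy hth heq
      exact hinj x y hx hy hxy hth (by simpa using heq)
    · intro r r' x x' hr hr' hx hx' hth hs
      have := F2 r' r x' x hr' hr hx' hx hth.symm (by simpa using hs)
      simpa using this
    · intro r r' x x' hr hr' hx hx' hth hs
      have := F3 r' r x' x hr' hr hx' hx hth.symm (by simpa using hs)
      rw [hth]
      linarith
    · intro r hr
      have := F4 r hr
      rw [abs_sub_comm] at this
      have e : -s (r + 1) - -s r = s r - s (r + 1) := by ring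
      rw [e]
      exact this
    · simpa using h

/-- Number of changes of type. -/
private lemma changes_card (K L : ℕ) (th : ℕ → ℕ) (hth : ∀ x, x < K → th x < L)
    (hKL : ∀ α b γ : ℕ, α < b → b < γ → γ < K → th α = th γ → th b ≤ th α) :
    ((Finset.range (K - 1)).filter (fun r => th r ≠ th (r + 1))).card ≤ 2 * L := by
  have h := Finset.card_le_card_of_injOn
    (s := (Finset.range (K - 1)).filter (fun r => th r ≠ th (r + 1)))
    (t := (Finset.range L) ×ˢ (Finset.univ : Finset Bool))
    (fun r => (min (th r) (th (r + 1)), decide (th r < th (r + 1)))) ?_ ?_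
  · rw [Finset.card_product, Finset.card_range, Finset.card_univ, Fintype.card_bool] at h
    omega
  · intro r hr
    rw [Finset.mem_coe, Finset.mem_filter, Finset.mem_range] at hr
    rw [Finset.mem_coe, Finset.mem_product]
    refine ⟨?_, Finset.mem_univ _⟩
    rw [Finset.mem_range]
    exact lt_of_le_of_lt (min_le_left _ _) (hth r (by omega))
  · have key : ∀ r r' : ℕ, r < r' → r < K - 1 → r' < K - 1 → th r ≠ th (r + 1) →
        th r' ≠ th (r' + 1) → min (th r) (th (r + 1)) = min (th r') (th (r' + 1)) →
        decide (th r < th (r + 1)) = decide (th r' < th (r' + 1)) → False := by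
      intro r r' hlt hr hr' hne hne' hmin hdec
      rw [decide_eq_decide] at hdec
      rcases lt_or_gt_of_ne hne with h1 | h1
      · have h2 := hdec.mp h1
        rw [min_eq_left h1.le, min_eq_left h2.le] at hmin
        by_cases h3 : r' = r + 1
        · subst h3; omega
        · have := hKL r (r + 1) r' (by omega) (by omega) (by omega) hmin
          omega
      · have h2 : th (r' + 1) < th r' := by
          rcases lt_or_gt_of_ne hne' with h | h
          · exact absurd (hdec.mpr h) (by omega)
          · exact h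
        rw [min_eq_right h1.le, min_eq_right h2.le] at hmin
        by_cases h3 : r' = r + 1
        · subst h3; omega
        · have := hKL (r + 1) r' (r' + 1) (by omega) (by omega) (by omega) hmin
          omega
    intro r hr r' hr' heq
    rw [Finset.mem_coe, Finset.mem_filter, Finset.mem_range] at hr hr'
    simp only [Prod.mk.injEq] at heq
    by_contra hne
    rcases lt_or_gt_of_ne hne with h | h
    · exact key r r' h hr.1 hr'.1 hr.2 hr'.2 heq.1 heq.2
    · exact key r' r h hr'.1 hr.1 hr'.2 hr.2 heq.1.symm heq.2.symm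

/-- Number of columns joining two apexes of one type. -/
private lemma same_card (K E : ℕ) (th : ℕ → ℕ) (s : ℕ → ℤ) (lo hi : ℕ → ℝ)
    (hs : ∀ r r' : ℕ, r + 1 < K → r' + 1 < K → r ≠ r' → s r ≠ s r')
    (hlo : ∀ r, r + 1 < K → 0 ≤ lo r) (hhi : ∀ r, r + 1 < K → hi r ≤ 1)
    (hgap : ∀ r, r + 1 < K → th r = th (r + 1) → (E : ℝ) * lo r + 1 ≤ E * hi r)
    (hchain : ∀ r r', r + 1 < K → r' + 1 < K → s r < s r' → hi r < lo r') :
    ((Finset.range (K - 1)).filter (fun r => th r = th (r + 1))).card ≤ E := by
  have h := Finset.card_le_card_of_injOn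
    (s := (Finset.range (K - 1)).filter (fun r => th r = th (r + 1)))
    (t := Finset.range E)
    (fun r => ⌊(E : ℝ) * lo r⌋₊) ?_ ?_
  · rw [Finset.card_range] at h
    exact h
  · intro r hr
    rw [Finset.mem_coe, Finset.mem_filter, Finset.mem_range] at hr
    rw [Finset.mem_coe, Finset.mem_range]
    have h1 := hgap r (by omega) hr.2
    have h2 := hhi r (by omega)
    have h3 := hlo r (by omega)
    have h4 : (0 : ℝ) ≤ (E : ℝ) := by positivity
    rw [Nat.floor_lt (by positivity)]
    nlinarith
  · have key : ∀ r r' : ℕ, r + 1 < K → r' + 1 < K → th r = th (r + 1) → s r < s r' →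
        ⌊(E : ℝ) * lo r⌋₊ = ⌊(E : ℝ) * lo r'⌋₊ → False := by
      intro r r' hr hr' hth hlt heq
      have h1 := hgap r hr hth
      have h2 := hchain r r' hr hr' hlt
      have h3 := hlo r hr
      have h4 : (0 : ℝ) ≤ (E : ℝ) := by positivity
      have h5 : (E : ℝ) * lo r + 1 ≤ E * lo r' := by nlinarith
      have h6 := Nat.floor_le_floor h5
      rw [Nat.floor_add_one (by positivity)] at h6
      omega
    intro r hr r' hr' heq
    rw [Finset.mem_coe, Finset.mem_filter, Finset.mem_range] at hr hr'
    by_contra hne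
    rcases lt_or_gt_of_ne (hs r r' (by omega) (by omega) hne) with h | h
    · exact key r r' (by omega) (by omega) hr.2 h heq
    · exact key r' r (by omega) (by omega) hr'.2 h heq.symm

/-- The core bound. -/
theorem core (K L E B : ℕ) (th : ℕ → ℕ) (a s : ℕ → ℤ) (hL : 0 < L) (hE : 0 < E)
    (hB : (2 * K + 1) * (L * E) < B)
    (hth : ∀ x, x < K → th x < L)
    (hinj : ∀ x y : ℕ, x < K → y < K → x ≠ y → th x = th y → a x ≠ a y)
    (hs : ∀ r r' : ℕ, r + 1 < K → r' + 1 < K → r ≠ r' → s r ≠ s r')
    (hdvd : ∀ r x : ℕ, r + 1 < K → (x = r ∨ x = r + 1) → (B : ℤ) ^ th x ∣ s r - a x)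
    (hlow : ∀ r x : ℕ, r + 1 < K → (x = r ∨ x = r + 1) → 0 ≤ s r - a x * L)
    (hupp : ∀ r x : ℕ, r + 1 < K → (x = r ∨ x = r + 1) →
      s r - a x * L ≤ ((L * E : ℕ) : ℤ) * (B : ℤ) ^ th x)
    (F1 : ∀ r r' x x' : ℕ, r + 1 < K → r' + 1 < K → (x = r ∨ x = r + 1) →
      (x' = r' ∨ x' = r' + 1) → s r < s r' →
      ((s r - a x * L : ℤ) : ℝ) / (((L * E : ℕ) : ℝ) * (B : ℝ) ^ th x) <
        ((s r' - a x' * L : ℤ) : ℝ) / (((L * E : ℕ) : ℝ) * (B : ℝ) ^ th x'))
    (F2 : ∀ r r' x x' : ℕ, r + 1 < K → r' + 1 < K → (x = r ∨ x = r + 1) →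
      (x' = r' ∨ x' = r' + 1) → th x = th x' → s r < s r' → a x' ≤ a x) :
    K ≤ E + 2 * L + 1 := by
  have hB0 : 0 < B := by omega
  have F3 : ∀ r r' x x' : ℕ, r + 1 < K → r' + 1 < K → (x = r ∨ x = r + 1) →
      (x' = r' ∨ x' = r' + 1) → th x = th x' → s r < s r' →
      s r' - s r ≤ ((L * E : ℕ) : ℤ) * (B : ℤ) ^ th x := by
    intro r r' x x' hr hr' hx hx' hthe hlt
    have h1 := F2 r r' x x' hr hr' hx hx' hthe hlt
    have h2 := hlow r x hr hx
    have h3 := hupp r' x' hr' hx'
    rw [← hthe] at h3
    have h4 : a x' * (L : ℤ) ≤ a x * L := mul_le_mul_of_nonneg_right h1 (by positivity)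
    linarith
  have F4 : ∀ r : ℕ, r + 2 < K → (B : ℤ) ^ th (r + 1) ≤ |s (r + 1) - s r| := by
    intro r hr
    have h1 := hdvd r (r + 1) (by omega) (Or.inr rfl)
    have h2 := hdvd (r + 1) (r + 1) (by omega) (Or.inl rfl)
    have h3 : (B : ℤ) ^ th (r + 1) ∣ s (r + 1) - s r := by
      have := dvd_sub h2 h1
      have e : s (r + 1) - a (r + 1) - (s r - a (r + 1)) = s (r + 1) - s r := by ring
      rwa [e] at this
    have h4 : s (r + 1) - s r ≠ 0 := by
      intro h
      exact hs (r + 1) r (by omega) (by omega) (by omega) (by linarith)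
    exact Int.le_of_dvd (abs_pos.mpr h4) ((dvd_abs _ _).mpr h3)
  have hKL : ∀ α b γ : ℕ, α < b → b < γ → γ < K → th α = th γ → th b ≤ th α := by
    intro α b γ h1 h2 h3 h4
    exact no_larger K (L * E) B th a s hB hinj F2 F3 F4 α b γ h1 h2 h3 h4
  have hc1 := changes_card K L th hth hKL
  set H : ℕ → ℕ → ℝ := fun x r =>
    ((s r - a x * L : ℤ) : ℝ) / (((L * E : ℕ) : ℝ) * (B : ℝ) ^ th x) with hH
  have hden : ∀ x, (0 : ℝ) < ((L * E : ℕ) : ℝ) * (B : ℝ) ^ th x := by
    intro x
    have : 0 < L * E := Nat.mul_pos hL hE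
    positivity
  have hc2 : ((Finset.range (K - 1)).filter (fun r => th r = th (r + 1))).card ≤ E := by
    apply same_card K E th s (fun r => min (H r r) (H (r + 1) r))
      (fun r => max (H r r) (H (r + 1) r)) hs
    · intro r hr
      apply le_min
      · apply div_nonneg _ (hden _).le
        exact_mod_cast hlow r r hr (Or.inl rfl)
      · apply div_nonneg _ (hden _).le
        exact_mod_cast hlow r (r + 1) hr (Or.inr rfl)
    · intro r hr
      apply max_le
      · apply div_le_one_of_le₀ _ (hden _).le
        have := hupp r r hr (Or.inl rfl)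
        exact_mod_cast this
      · apply div_le_one_of_le₀ _ (hden _).le
        have := hupp r (r + 1) hr (Or.inr rfl)
        exact_mod_cast this
    · intro r hr hth'
      have h1 := hdvd r r hr (Or.inl rfl)
      have h2 := hdvd r (r + 1) hr (Or.inr rfl)
      rw [← hth'] at h2
      have h3 : (B : ℤ) ^ th r ∣ a r - a (r + 1) := by
        have := dvd_sub h2 h1
        have e : s r - a (r + 1) - (s r - a r) = a r - a (r + 1) := by ring
        rwa [e] at this
      have h4 : a r - a (r + 1) ≠ 0 := by
        intro h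
        exact hinj r (r + 1) (by omega) (by omega) (by omega) hth' (by linarith)
      have h5 : (B : ℤ) ^ th r ≤ |a r - a (r + 1)| :=
        Int.le_of_dvd (abs_pos.mpr h4) ((dvd_abs _ _).mpr h3)
      have hd := hden r
      have e1 : H (r + 1) r - H r r =
          ((a r - a (r + 1) : ℤ) : ℝ) * L / (((L * E : ℕ) : ℝ) * (B : ℝ) ^ th r) := by
        simp only [hH]
        rw [← hth', ← sub_div]
        congr 1
        push_cast
        ring
      have h6 : (1 : ℝ) ≤ E * |H (r + 1) r - H r r| := by
        rw [e1, abs_div, abs_of_pos hd, abs_mul, abs_of_nonneg (by positivity : (0 : ℝ) ≤ L)]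
        rw [mul_div_assoc', le_div_iff₀ hd]
        have h7 : ((B : ℝ) ^ th r) ≤ |((a r - a (r + 1) : ℤ) : ℝ)| := by
          have : (((B : ℤ) ^ th r : ℤ) : ℝ) ≤ ((|a r - a (r + 1)| : ℤ) : ℝ) := by
            exact_mod_cast h5
          rw [Int.cast_abs] at this
          push_cast at this ⊢
          exact this
        have h8 : (0 : ℝ) ≤ (E : ℝ) * L := by positivity
        push_cast at h7 ⊢
        nlinarith [mul_le_mul_of_nonneg_left h7 h8]
      have h9 : max (H r r) (H (r + 1) r) = min (H r r) (H (r + 1) r) +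
          |H (r + 1) r - H r r| := by
        rcases le_total (H r r) (H (r + 1) r) with h | h
        · rw [max_eq_right h, min_eq_left h, abs_of_nonneg (by linarith)]; ring
        · rw [max_eq_left h, min_eq_right h, abs_of_nonpos (by linarith)]; ring
      rw [h9]
      linarith
    · intro r r' hr hr' hlt
      apply lt_min
      · apply max_lt
        · exact F1 r r' r r' hr hr' (Or.inl rfl) (Or.inl rfl) hlt
        · exact F1 r r' (r + 1) r' hr hr' (Or.inr rfl) (Or.inl rfl) hlt
      · apply max_lt
        · exact F1 r r' r (r' + 1) hr hr' (Or.inl rfl) (Or.inr rfl) hlt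
        · exact F1 r r' (r + 1) (r' + 1) hr hr' (Or.inr rfl) (Or.inr rfl) hlt
  have hsum : ((Finset.range (K - 1)).filter (fun r => th r = th (r + 1))).card +
      ((Finset.range (K - 1)).filter (fun r => th r ≠ th (r + 1))).card = K - 1 := by
    have := Finset.card_filter_add_card_filter_not (s := Finset.range (K - 1))
      (fun r => th r = th (r + 1))
    rw [Finset.card_range] at this
    exact this
  omega

end Pool.Agent.Lib.MP_832c97_co.Slit
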