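import Mathlib

set_option autoImplicit false

/-!
# Proper crossings and perturbation into general position
-/

namespace Pool.Agent.Lib.MP_832c97_co.Slit

/-- Orientation determinant. -/
def orient (a b c : ℝ × ℝ) : ℝ :=
  (b.1 - a.1) * (c.2 - a.2) - (b.2 - a.2) * (c.1 - a.1)

/-- The segments `a b` and `c e` cross properly. -/
def Proper (a b c e : ℝ × ℝ) : Prop :=
  orient a b c < 0 ∧ 0 < orient a b e ∧ 0 < orient c e a ∧ orient c e b < 0

theorem proper_not_disjoint (a b c e : ℝ × ℝ) (h : Proper a b c e) :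
    ¬ Disjoint (segment ℝ a b) (segment ℝ c e) := by
  obtain ⟨h1, h2, h3, h4⟩ := h
  rw [Set.not_disjoint_iff]
  have hΔ : 0 < orient c e a - orient c e b := by linarith
  have hΔ' : orient a b e - orient a b c = orient c e a - orient c e b := by
    simp only [orient]; ring
  refine ⟨a + (orient c e a / (orient c e a - orient c e b)) • (b - a), ?_, ?_⟩
  · rw [segment_eq_image']
    refine ⟨orient c e a / (orient c e a - orient c e b), ⟨by positivity, ?_⟩, rfl⟩
    rw [div_le_one hΔ]; linarith
  · rw [segment_eq_image']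
    refine ⟨(- orient a b c) / (orient c e a - orient c e b), ⟨?_, ?_⟩, ?_⟩
    · apply div_nonneg (by linarith) hΔ.le
    · rw [div_le_one hΔ]; linarith
    · have hne := hΔ.ne'
      ext
      · simp only [Prod.fst_add, Prod.smul_fst, Prod.fst_sub, smul_eq_mul]
        field_simp
        simp only [orient]
        ring
      · simp only [Prod.snd_add, Prod.smul_snd, Prod.snd_sub, smul_eq_mul]
        field_simp
        simp only [orient]
        ring

theorem not_collinear_of_orient (a b c : ℝ × ℝ) (h : orient a b c ≠ 0) :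
    ¬ Collinear ℝ ({a, b, c} : Set (ℝ × ℝ)) := by
  intro hc
  apply h
  rw [collinear_iff_exists_forall_eq_smul_vadd] at hc
  obtain ⟨p0, v, hv⟩ := hc
  obtain ⟨q, hq⟩ := hv a (by simp)
  obtain ⟨r, hr⟩ := hv b (by simp)
  obtain ⟨t, ht⟩ := hv c (by simp)
  rw [hq, hr, ht]
  simp only [orient, vadd_eq_add, Prod.fst_add, Prod.snd_add, Prod.smul_fst, Prod.smul_snd,
    smul_eq_mul]
  ring

/-- A polynomial of degree at most two with a non-zero coefficient of positive degree does not
vanish for small positive arguments. -/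
private lemma quad_eventually (c0 c1 c2 : ℝ) (h : c1 ≠ 0 ∨ c2 ≠ 0) :
    ∀ᶠ ε in nhdsWithin (0 : ℝ) (Set.Ioi 0), c0 + c1 * ε + c2 * ε ^ 2 ≠ 0 := by
  set p : Polynomial ℝ := Polynomial.C c0 + Polynomial.C c1 * Polynomial.X +
    Polynomial.C c2 * Polynomial.X ^ 2 with hp
  have hp0 : p ≠ 0 := by
    intro h0
    have e1 : p.coeff 1 = c1 := by
      simp [hp, Polynomial.coeff_C]
    have e2 : p.coeff 2 = c2 := by
      simp [hp]
    rw [h0] at e1 e2
    simp only [Polynomial.coeff_zero] at e1 e2
    rcases h with h | h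
    · exact h e1.symm
    · exact h e2.symm
  have hev : ∀ x : ℝ, p.eval x = c0 + c1 * x + c2 * x ^ 2 := by
    intro x
    simp [hp]
  have hfin : (p.roots.toFinset : Set ℝ).Finite := Finset.finite_toSet _
  have hopen : IsOpen ((p.roots.toFinset : Set ℝ) \ {0})ᶜ :=
    (hfin.subset Set.sdiff_subset).isClosed.isOpen_compl
  have hmem : ((p.roots.toFinset : Set ℝ) \ {0})ᶜ ∈ nhds (0 : ℝ) :=
    hopen.mem_nhds (by simp)
  have h1 : ∀ᶠ ε in nhdsWithin (0 : ℝ) (Set.Ioi 0), ε ∈ ((p.roots.toFinset : Set ℝ) \ {0})ᶜ :=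
    mem_nhdsWithin_of_mem_nhds hmem
  have h2 : ∀ᶠ ε in nhdsWithin (0 : ℝ) (Set.Ioi 0), (0 : ℝ) < ε := self_mem_nhdsWithin
  filter_upwards [h1, h2] with ε he hpos hz
  apply he
  refine ⟨?_, ?_⟩
  · rw [Finset.mem_coe, Multiset.mem_toFinset, Polynomial.mem_roots hp0]
    rw [Polynomial.IsRoot.def, hev]
    exact hz
  · simp only [Set.mem_singleton_iff]
    exact hpos.ne'

/-- Every finite configuration can be moved into general position so that all proper crossings
stay proper. -/
theorem perturb {V : Type} [Fintype V] (P0 : V → ℝ × ℝ) :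
    ∃ P : V → ℝ × ℝ, Function.Injective P ∧
      (∀ a b c : V, a ≠ b → b ≠ c → a ≠ c →
        ¬ Collinear ℝ ({P a, P b, P c} : Set (ℝ × ℝ))) ∧
      (∀ a b c e : V, Proper (P0 a) (P0 b) (P0 c) (P0 e) → Proper (P a) (P b) (P c) (P e)) := by
  classical
  set g : V → ℝ := fun v => ((Fintype.equivFin V v : ℕ) : ℝ) with hg
  have ginj : ∀ a b : V, a ≠ b → g a - g b ≠ 0 := by
    intro a b hab h
    apply hab
    have : g a = g b := by linarith
    simp only [hg, Nat.cast_inj] at this
    exact (Fintype.equivFin V).injective (Fin.ext this)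
  set Q : ℝ → V → ℝ × ℝ := fun ε v => ((P0 v).1 + ε * g v, (P0 v).2 + ε * g v ^ 2) with hQ
  have E1 : ∀ᶠ ε in nhdsWithin (0 : ℝ) (Set.Ioi 0),
      ∀ a b : V, a ≠ b → Q ε a ≠ Q ε b := by
    rw [Filter.eventually_all]
    intro a
    rw [Filter.eventually_all]
    intro b
    by_cases hab : a = b
    · exact Filter.Eventually.of_forall (fun ε h => absurd hab h)
    · have := quad_eventually ((P0 a).1 - (P0 b).1) (g a - g b) 0 (Or.inl (ginj a b hab))
      filter_upwards [this] with ε he _ heq
      apply he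
      have := congrArg Prod.fst heq
      simp only [hQ] at this
      linarith
  have E2 : ∀ᶠ ε in nhdsWithin (0 : ℝ) (Set.Ioi 0),
      ∀ a b c : V, a ≠ b → b ≠ c → a ≠ c → orient (Q ε a) (Q ε b) (Q ε c) ≠ 0 := by
    rw [Filter.eventually_all]
    intro a
    rw [Filter.eventually_all]
    intro b
    rw [Filter.eventually_all]
    intro c
    by_cases hab : a = b
    · exact Filter.Eventually.of_forall (fun ε h => absurd hab h)
    by_cases hbc : b = c
    · exact Filter.Eventually.of_forall (fun ε _ h => absurd hbc h)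
    by_cases hac : a = c
    · exact Filter.Eventually.of_forall (fun ε _ _ h => absurd hac h)
    have hv : (g b - g a) * (g c - g a) * (g c - g b) ≠ 0 :=
      mul_ne_zero (mul_ne_zero (ginj b a (Ne.symm hab)) (ginj c a (Ne.symm hac)))
        (ginj c b (Ne.symm hbc))
    have := quad_eventually (orient (P0 a) (P0 b) (P0 c))
      (((P0 b).1 - (P0 a).1) * (g c ^ 2 - g a ^ 2) + (g b - g a) * ((P0 c).2 - (P0 a).2)
        - ((P0 b).2 - (P0 a).2) * (g c - g a) - (g b ^ 2 - g a ^ 2) * ((P0 c).1 - (P0 a).1))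
      ((g b - g a) * (g c - g a) * (g c - g b)) (Or.inr hv)
    filter_upwards [this] with ε he _ _ _ heq
    apply he
    rw [← heq]
    simp only [orient, hQ]
    ring
  have hcont : ∀ a b c : V, Continuous (fun ε => orient (Q ε a) (Q ε b) (Q ε c)) := by
    intro a b c
    simp only [orient, hQ]
    fun_prop
  have hzero : ∀ v, Q 0 v = P0 v := by
    intro v
    simp [hQ]
  have E3 : ∀ᶠ ε in nhdsWithin (0 : ℝ) (Set.Ioi 0),
      ∀ a b c e : V, Proper (P0 a) (P0 b) (P0 c) (P0 e) →
        Proper (Q ε a) (Q ε b) (Q ε c) (Q ε e) := by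
    rw [Filter.eventually_all]
    intro a
    rw [Filter.eventually_all]
    intro b
    rw [Filter.eventually_all]
    intro c
    rw [Filter.eventually_all]
    intro e
    by_cases hP : Proper (P0 a) (P0 b) (P0 c) (P0 e)
    · obtain ⟨h1, h2, h3, h4⟩ := hP
      have neg : ∀ x y z : V, orient (P0 x) (P0 y) (P0 z) < 0 →
          ∀ᶠ ε in nhdsWithin (0 : ℝ) (Set.Ioi 0), orient (Q ε x) (Q ε y) (Q ε z) < 0 := by
        intro x y z h
        have hc := (hcont x y z).tendsto 0
        simp only [hzero] at hc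
        exact (hc.eventually (Iio_mem_nhds h)).filter_mono nhdsWithin_le_nhds
      have pos : ∀ x y z : V, 0 < orient (P0 x) (P0 y) (P0 z) →
          ∀ᶠ ε in nhdsWithin (0 : ℝ) (Set.Ioi 0), 0 < orient (Q ε x) (Q ε y) (Q ε z) := by
        intro x y z h
        have hc := (hcont x y z).tendsto 0
        simp only [hzero] at hc
        exact (hc.eventually (Ioi_mem_nhds h)).filter_mono nhdsWithin_le_nhds
      filter_upwards [neg a b c h1, pos a b e h2, pos c e a h3, neg c e b h4]
        with ε k1 k2 k3 k4 _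
      exact ⟨k1, k2, k3, k4⟩
    · exact Filter.Eventually.of_forall (fun ε h => absurd h hP)
  obtain ⟨ε, e1, e2, e3⟩ := (E1.and (E2.and E3)).exists
  refine ⟨Q ε, ?_, ?_, e3⟩
  · intro a b hab
    by_contra hne
    exact e1 a b hne hab
  · intro a b c hab hbc hac
    exact not_collinear_of_orient _ _ _ (e2 a b c hab hbc hac)

/-- Position of the apex with parameters `t`, `c`. -/
noncomputable def apexPt (t c : ℝ) : ℝ × ℝ := (- (1 / t), - (c / t))

/-- The crossing criterion for two segments from apexes to columns. -/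
theorem proper_apex (t t' c c' n n' : ℝ) (ht : 0 < t) (ht' : 0 < t') (hn : n < n')
    (h1 : (t + 1) * (n - c') < (t' + 1) * (n - c))
    (h2 : (t + 1) * (n' - c') < (t' + 1) * (n' - c)) :
    Proper (apexPt t c) (1, n) (apexPt t' c') (1, n') := by
  have e1 : orient (apexPt t c) (1, n) (apexPt t' c') =
      ((t + 1) * (n - c') - (t' + 1) * (n - c)) / (t * t') := by
    simp only [orient, apexPt]
    field_simp
    ring
  have e2 : orient (apexPt t c) (1, n) (1, n') = (t + 1) * (n' - n) / t := by
    simp only [orient, apexPt]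
    field_simp
    ring
  have e3 : orient (apexPt t' c') (1, n') (apexPt t c) =
      ((t' + 1) * (n' - c) - (t + 1) * (n' - c')) / (t * t') := by
    simp only [orient, apexPt]
    field_simp
    ring
  have e4 : orient (apexPt t' c') (1, n') (1, n) = (t' + 1) * (n - n') / t' := by
    simp only [orient, apexPt]
    field_simp
    ring
  refine ⟨?_, ?_, ?_, ?_⟩
  · rw [e1]
    exact div_neg_of_neg_of_pos (by linarith) (by positivity)
  · rw [e2]
    apply div_pos (mul_pos (by linarith) (by linarith)) ht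
  · rw [e3]
    exact div_pos (by linarith) (by positivity)
  · rw [e4]
    exact div_neg_of_neg_of_pos (mul_neg_of_pos_of_neg (by linarith) (by linarith)) ht'

end Pool.Agent.Lib.MP_832c97_co.Slit
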