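import Mathlib
import Pool.Agent.Lib.MP_832c97_co.Slit.Core
import Pool.Agent.Lib.MP_832c97_co.Slit.Geo

set_option autoImplicit false

/-!
# The slit graph has many edges and no long noncrossing path
-/

namespace Pool.Agent.Lib.MP_832c97_co.Slit

/-- The column `n` is joined to the apex of type `i` and index `a`. -/
def Rel (L E B n i a : ℕ) : Prop :=
  (B : ℤ) ^ i ∣ (n : ℤ) - a ∧ a * L ≤ n ∧ n ≤ a * L + L * E * B ^ i

/-- The slit graph. -/
def slitGraph (L E B N M : ℕ) : SimpleGraph (Fin N ⊕ (Fin L × Fin M)) where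
  Adj x y := (∃ n p, x = Sum.inl n ∧ y = Sum.inr p ∧ Rel L E B n p.1 p.2) ∨
    (∃ n p, y = Sum.inl n ∧ x = Sum.inr p ∧ Rel L E B n p.1 p.2)
  symm := ⟨by
    intro x y h
    rcases h with ⟨n, p, h1, h2, h3⟩ | ⟨n, p, h1, h2, h3⟩
    · exact Or.inr ⟨n, p, h1, h2, h3⟩
    · exact Or.inl ⟨n, p, h1, h2, h3⟩⟩
  loopless := ⟨by
    intro x h
    rcases h with ⟨n, p, h1, h2, _⟩ | ⟨n, p, h1, h2, _⟩
    · rw [h1] at h2; cases h2
    · rw [h1] at h2; cases h2⟩

/-- The ideal positions. -/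
noncomputable def pos (L E B N M : ℕ) : Fin N ⊕ (Fin L × Fin M) → ℝ × ℝ :=
  Sum.elim (fun n => (1, ((n : ℕ) : ℝ)))
    (fun p => apexPt (((L * E : ℕ) : ℝ) * (B : ℝ) ^ (p.1 : ℕ) - 1) (((p.2 : ℕ) : ℝ) * L))

/-- Type of a vertex. -/
def typ {L N M : ℕ} : Fin N ⊕ (Fin L × Fin M) → ℕ :=
  Sum.elim (fun _ => 0) (fun p => (p.1 : ℕ))

/-- Index of a vertex. -/
def idx {L N M : ℕ} : Fin N ⊕ (Fin L × Fin M) → ℤ :=
  Sum.elim (fun n => ((n : ℕ) : ℤ)) (fun p => ((p.2 : ℕ) : ℤ))

private lemma right_ext {L N M : ℕ} (x y : Fin N ⊕ (Fin L × Fin M)) (hx : x.isRight = true)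
    (hy : y.isRight = true) (h1 : typ x = typ y) (h2 : idx x = idx y) : x = y := by
  rcases x with n | ⟨i, a⟩ <;> rcases y with n' | ⟨i', a'⟩
  · cases hx
  · cases hx
  · cases hy
  · simp only [typ, idx, Sum.elim_inr, Nat.cast_inj] at h1 h2
    rw [Fin.ext h1, Fin.ext h2]

private lemma left_ext {L N M : ℕ} (x y : Fin N ⊕ (Fin L × Fin M)) (hx : x.isRight = false)
    (hy : y.isRight = false) (h2 : idx x = idx y) : x = y := by
  rcases x with n | ⟨i, a⟩ <;> rcases y with n' | ⟨i', a'⟩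
  · simp only [idx, Sum.elim_inl, Nat.cast_inj] at h2
    rw [Fin.ext h2]
  · cases hy
  · cases hx
  · cases hx

private lemma typ_lt {L N M : ℕ} (x : Fin N ⊕ (Fin L × Fin M)) (hx : x.isRight = true) :
    typ x < L := by
  rcases x with n | ⟨i, a⟩
  · cases hx
  · exact i.2

private lemma adj_right {L E B N M : ℕ} (x y : Fin N ⊕ (Fin L × Fin M))
    (h : (slitGraph L E B N M).Adj x y) : y.isRight = !x.isRight := by
  rcases h with ⟨n, p, h1, h2, _⟩ | ⟨n, p, h1, h2, _⟩
  · rw [h1, h2]; rfl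
  · rw [h1, h2]; rfl

private lemma adj_rel {L E B N M : ℕ} (x y : Fin N ⊕ (Fin L × Fin M))
    (h : (slitGraph L E B N M).Adj x y) (hx : x.isRight = true) :
    (B : ℤ) ^ typ x ∣ idx y - idx x ∧ 0 ≤ idx y - idx x * L ∧
      idx y - idx x * L ≤ ((L * E : ℕ) : ℤ) * (B : ℤ) ^ typ x := by
  rcases h with ⟨n, p, h1, h2, h3⟩ | ⟨n, p, h1, h2, h3⟩
  · rw [h1] at hx; cases hx
  · rw [h1, h2]
    simp only [typ, idx, Sum.elim_inl, Sum.elim_inr]
    obtain ⟨k1, k2, k3⟩ := h3
    refine ⟨k1, ?_, ?_⟩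
    · have : (((p.2 : ℕ) * L : ℕ) : ℤ) ≤ ((n : ℕ) : ℤ) := by exact_mod_cast k2
      push_cast at this
      linarith
    · have : ((n : ℕ) : ℤ) ≤ (((p.2 : ℕ) * L + L * E * B ^ (p.1 : ℕ) : ℕ) : ℤ) := by
        exact_mod_cast k3
      push_cast at this ⊢
      linarith

private lemma pos_right {L E B N M : ℕ} (x : Fin N ⊕ (Fin L × Fin M)) (hx : x.isRight = true) :
    pos L E B N M x = apexPt (((L * E : ℕ) : ℝ) * (B : ℝ) ^ typ x - 1) ((idx x : ℝ) * L) := by
  rcases x with n | ⟨i, a⟩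
  · cases hx
  · simp [pos, typ, idx]

private lemma pos_left {L E B N M : ℕ} (x : Fin N ⊕ (Fin L × Fin M)) (hx : x.isRight = false) :
    pos L E B N M x = (1, (idx x : ℝ)) := by
  rcases x with n | ⟨i, a⟩
  · simp [pos, idx]
  · cases hx

/-- Two edges without a proper crossing: the crossing points with the slit are ordered like the
columns, and the apexes of one type are ordered against the columns. -/
private lemma not_proper {L E B N M : ℕ} (hL : 2 ≤ L) (hE : 0 < E) (hB : 0 < B)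
    (x y x' y' : Fin N ⊕ (Fin L × Fin M)) (hx : x.isRight = true) (hy : y.isRight = false)
    (hx' : x'.isRight = true) (hy' : y'.isRight = false) (hlt : idx y < idx y')
    (h : ¬ Proper (pos L E B N M x) (pos L E B N M y) (pos L E B N M x') (pos L E B N M y')) :
    ((idx y - idx x * L : ℤ) : ℝ) / (((L * E : ℕ) : ℝ) * (B : ℝ) ^ typ x) <
        ((idx y' - idx x' * L : ℤ) : ℝ) / (((L * E : ℕ) : ℝ) * (B : ℝ) ^ typ x') ∧
      (typ x = typ x' → idx x' ≤ idx x) := by
  rw [pos_right x hx, pos_left y hy, pos_right x' hx', pos_left y' hy'] at h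
  have hT : ∀ i : ℕ, (2 : ℝ) ≤ ((L * E : ℕ) : ℝ) * (B : ℝ) ^ i := by
    intro i
    have h1 : 2 ≤ L * E * B ^ i := by
      have h2 : 1 ≤ B ^ i := Nat.one_le_pow _ _ hB
      have h3 : 2 ≤ L * E := by nlinarith
      nlinarith
    exact_mod_cast h1
  have hlt' : (idx y : ℝ) < (idx y' : ℝ) := by exact_mod_cast hlt
  set T : ℝ := ((L * E : ℕ) : ℝ) * (B : ℝ) ^ typ x with hTdef
  set T' : ℝ := ((L * E : ℕ) : ℝ) * (B : ℝ) ^ typ x' with hTdef'
  have hT1 : 2 ≤ T := hT _
  have hT2 : 2 ≤ T' := hT _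
  constructor
  · by_contra hcon
    push Not at hcon
    apply h
    rw [div_le_div_iff₀ (by linarith) (by linarith)] at hcon
    push_cast at hcon
    apply proper_apex _ _ _ _ _ _ (by linarith) (by linarith) hlt'
    · nlinarith
    · nlinarith
  · intro hth
    by_contra hcon
    push Not at hcon
    apply h
    have hTT : T = T' := by rw [hTdef, hTdef', hth]
    have hc : (idx x : ℝ) < (idx x' : ℝ) := by exact_mod_cast hcon
    have hL0 : (0 : ℝ) < (L : ℝ) := by
      have : 0 < L := by omega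
      exact_mod_cast this
    have hcL : (idx x : ℝ) * L < (idx x' : ℝ) * L := mul_lt_mul_of_pos_right hc hL0
    apply proper_apex _ _ _ _ _ _ (by linarith) (by linarith) hlt'
    · rw [hTT]; nlinarith
    · rw [hTT]; nlinarith

/-- The slit graph has no long noncrossing path. -/
theorem no_path {L E B N M : ℕ} (K : ℕ) (hL : 2 ≤ L) (hE : 0 < E)
    (hB : (2 * K + 1) * (L * E) < B) (hK : E + 2 * L + 1 < K)
    (P : Fin N ⊕ (Fin L × Fin M) → ℝ × ℝ)
    (hP : ∀ a b c e, Proper (pos L E B N M a) (pos L E B N M b) (pos L E B N M c)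
      (pos L E B N M e) → Proper (P a) (P b) (P c) (P e))
    (f : ℕ → Fin N ⊕ (Fin L × Fin M))
    (f1 : ∀ i j : ℕ, i < 2 * K → j < 2 * K → f i = f j → i = j)
    (f2 : ∀ i : ℕ, i + 1 < 2 * K → (slitGraph L E B N M).Adj (f i) (f (i + 1)))
    (f3 : ∀ i j : ℕ, i + 1 < j → j + 1 < 2 * K →
      Disjoint (segment ℝ (P (f i)) (P (f (i + 1))))
        (segment ℝ (P (f j)) (P (f (j + 1))))) : False := by
  obtain ⟨o, ho, hpar⟩ : ∃ o : ℕ, o ≤ 1 ∧
      ∀ j, j < 2 * K → ((f j).isRight = true ↔ (j + o) % 2 = 0) := by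
    have step : ∀ o : ℕ, ((f 0).isRight = true ↔ (0 + o) % 2 = 0) →
        ∀ j, j < 2 * K → ((f j).isRight = true ↔ (j + o) % 2 = 0) := by
      intro o h0 j
      induction j with
      | zero => intro _; exact h0
      | succ j ih =>
        intro hj
        have ih' := ih (by omega)
        have h1 := adj_right _ _ (f2 j hj)
        rw [h1]
        cases hb : (f j).isRight with
        | true =>
          have := ih'.mp hb
          simp only [Bool.not_true, Bool.false_eq_true, false_iff]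
          omega
        | false =>
          have : ¬ (j + o) % 2 = 0 := fun h => by
            have := ih'.mpr h
            rw [hb] at this
            cases this
          simp only [Bool.not_false, true_iff]
          omega
    cases hb : (f 0).isRight with
    | true => exact ⟨0, by omega, step 0 (by simp [hb])⟩
    | false => exact ⟨1, by omega, step 1 (by simp [hb])⟩
  have hA : ∀ r, r < K → (f (2 * r + o)).isRight = true := by
    intro r hr
    rw [hpar _ (by omega)]
    omega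
  have hC : ∀ r, r + 1 < K → (f (2 * r + o + 1)).isRight = false := by
    intro r hr
    have h := hpar (2 * r + o + 1) (by omega)
    cases hb : (f (2 * r + o + 1)).isRight with
    | true =>
      have := h.mp hb
      omega
    | false => rfl
  have hadj : ∀ r x : ℕ, r + 1 < K → (x = r ∨ x = r + 1) →
      (slitGraph L E B N M).Adj (f (2 * x + o)) (f (2 * r + o + 1)) := by
    intro r x hr hx
    rcases hx with rfl | rfl
    · exact f2 _ (by omega)
    · have := f2 (2 * r + o + 1) (by omega)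
      have e : 2 * (r + 1) + o = 2 * r + o + 1 + 1 := by ring
      rw [e]
      exact this.symm
  have hseg : ∀ r x : ℕ, r + 1 < K → (x = r ∨ x = r + 1) →
      segment ℝ (P (f (2 * x + o))) (P (f (2 * r + o + 1))) =
        segment ℝ (P (f (x + r + o))) (P (f (x + r + o + 1))) := by
    intro r x hr hx
    rcases hx with rfl | rfl
    · have e : x + x + o = 2 * x + o := by ring
      rw [e]
    · have e : 2 * (r + 1) + o = 2 * r + o + 1 + 1 := by ring
      have e' : r + 1 + r + o = 2 * r + o + 1 := by ring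
      rw [e, e', segment_symm]
  have hB0 : 0 < B := by omega
  have hnp : ∀ r r' x x' : ℕ, r + 1 < K → r' + 1 < K → (x = r ∨ x = r + 1) →
      (x' = r' ∨ x' = r' + 1) → idx (f (2 * r + o + 1)) < idx (f (2 * r' + o + 1)) → x ≠ x' →
      ((idx (f (2 * r + o + 1)) - idx (f (2 * x + o)) * L : ℤ) : ℝ) /
          (((L * E : ℕ) : ℝ) * (B : ℝ) ^ typ (f (2 * x + o))) <
        ((idx (f (2 * r' + o + 1)) - idx (f (2 * x' + o)) * L : ℤ) : ℝ) /
          (((L * E : ℕ) : ℝ) * (B : ℝ) ^ typ (f (2 * x' + o))) ∧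
      (typ (f (2 * x + o)) = typ (f (2 * x' + o)) →
        idx (f (2 * x' + o)) ≤ idx (f (2 * x + o))) := by
    intro r r' x x' hr hr' hx hx' hlt hne
    have hrr : r ≠ r' := by
      rintro rfl
      exact lt_irrefl _ hlt
    apply not_proper hL hE hB0 _ _ _ _ (hA x (by omega)) (hC r hr) (hA x' (by omega))
      (hC r' hr') hlt
    intro hprop
    apply proper_not_disjoint _ _ _ _ (hP _ _ _ _ hprop)
    rw [hseg r x hr hx, hseg r' x' hr' hx']
    rcases lt_or_ge (x + r + o + 1) (x' + r' + o) with h | h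
    · exact f3 _ _ h (by omega)
    · rcases lt_or_ge (x' + r' + o + 1) (x + r + o) with h' | h'
      · exact (f3 _ _ h' (by omega)).symm
      · exfalso
        omega
  have hfin := core K L E B (fun x => typ (f (2 * x + o))) (fun x => idx (f (2 * x + o)))
    (fun r => idx (f (2 * r + o + 1))) (by omega) hE hB
    (fun x hx => typ_lt _ (hA x hx)) ?_ ?_ ?_ ?_ ?_ ?_ ?_
  · omega
  · intro x y hx hy hxy hth heq
    have := f1 _ _ (by omega) (by omega) (right_ext _ _ (hA x hx) (hA y hy) hth heq)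
    omega
  · intro r r' hr hr' hrr heq
    have := f1 _ _ (by omega) (by omega) (left_ext _ _ (hC r hr) (hC r' hr') heq)
    omega
  · intro r x hr hx
    exact (adj_rel _ _ (hadj r x hr hx) (hA x (by omega))).1
  · intro r x hr hx
    exact (adj_rel _ _ (hadj r x hr hx) (hA x (by omega))).2.1
  · intro r x hr hx
    exact (adj_rel _ _ (hadj r x hr hx) (hA x (by omega))).2.2
  · intro r r' x x' hr hr' hx hx' hlt
    by_cases hxx : x = x'
    · subst hxx
      have hpos : (0 : ℝ) < ((L * E : ℕ) : ℝ) * (B : ℝ) ^ typ (f (2 * x + o)) := by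
        have h1 : 0 < L * E := Nat.mul_pos (by omega) hE
        positivity
      apply div_lt_div_of_pos_right _ hpos
      have : idx (f (2 * r + o + 1)) - idx (f (2 * x + o)) * L <
          idx (f (2 * r' + o + 1)) - idx (f (2 * x + o)) * L := by linarith
      exact_mod_cast this
    · exact (hnp r r' x x' hr hr' hx hx' hlt hxx).1
  · intro r r' x x' hr hr' hx hx' hth hlt
    by_cases hxx : x = x'
    · subst hxx
      exact le_rfl
    · exact (hnp r r' x x' hr hr' hx hx' hlt hxx).2 hth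

/-- The column of the `m`-th edge at the apex of type `i` and index `a`. -/
def colOf (L B i a m : ℕ) : ℕ :=
  a + B ^ i * ((a * (L - 1) + (B ^ i - 1)) / B ^ i + m)

private lemma colOf_spec (L E B i a m : ℕ) (hL : 0 < L) (hB : 0 < B) (hm : m < L * E) :
    Rel L E B (colOf L B i a m) i a ∧ colOf L B i a m < a * L + L * E * B ^ i := by
  have hq : 0 < B ^ i := Nat.pow_pos hB
  set q := B ^ i with hqdef
  set c := (a * (L - 1) + (q - 1)) / q with hc
  have h1 : q * c ≤ a * (L - 1) + (q - 1) := Nat.mul_div_le _ _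
  have h2 : a * (L - 1) + (q - 1) < q * c + q := by
    have := Nat.lt_mul_div_succ (a * (L - 1) + (q - 1)) hq
    rw [← hc] at this
    linarith [this]
  obtain ⟨l, rfl⟩ : ∃ l, L = l + 1 := ⟨L - 1, by omega⟩
  simp only [Nat.add_sub_cancel] at h1 h2 hc
  have h3 : a * (l + 1) = a * l + a := by ring
  have h4 : q * (m + 1) ≤ q * ((l + 1) * E) := Nat.mul_le_mul_left _ hm
  have h5 : (l + 1) * E * q = q * ((l + 1) * E) := by ring
  have h6 : q * (c + m) = q * c + q * m := by ring
  have h7 : q * (m + 1) = q * m + q := by ring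
  have hcol : colOf (l + 1) B i a m = a + (q * c + q * m) := by
    rw [← h6, hc, hqdef]
    rfl
  refine ⟨⟨?_, ?_, ?_⟩, ?_⟩
  · rw [hcol]
    refine ⟨(c + m : ℕ), ?_⟩
    rw [hqdef]
    push_cast
    ring
  · rw [hcol, h3]; omega
  · rw [hcol, h3, ← hqdef, h5]; omega
  · rw [hcol, h3, h5]; omega

/-- Lower bound for the number of edges. -/
theorem edges_card {L E B N M : ℕ} (hL : 0 < L) (hB : 0 < B)
    (hN : M * L + L * E * B ^ L ≤ N) :
    L * (M * (L * E)) ≤ (slitGraph L E B N M).edgeSet.ncard := by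
  have hlt : ∀ (i : Fin L) (a : Fin M) (m : Fin (L * E)), colOf L B i a m < N := by
    intro i a m
    have h1 := (colOf_spec L E B i a m hL hB m.2).2
    have h2 : (a : ℕ) * L ≤ M * L := Nat.mul_le_mul_right _ a.2.le
    have h3 : L * E * B ^ (i : ℕ) ≤ L * E * B ^ L :=
      Nat.mul_le_mul_left _ (Nat.pow_le_pow_right hB i.2.le)
    omega
  set φ : Fin L × Fin M × Fin (L * E) → Sym2 (Fin N ⊕ (Fin L × Fin M)) := fun t =>
    s(Sum.inl ⟨colOf L B t.1 t.2.1 t.2.2, hlt t.1 t.2.1 t.2.2⟩, Sum.inr (t.1, t.2.1)) with hφ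
  have hinj : Function.Injective φ := by
    rintro ⟨i, a, m⟩ ⟨i', a', m'⟩ heq
    simp only [hφ, Sym2.eq_iff] at heq
    rcases heq with ⟨h1, h2⟩ | ⟨h1, _⟩
    · simp only [Sum.inr.injEq, Prod.mk.injEq] at h2
      obtain ⟨rfl, rfl⟩ := h2
      simp only [Sum.inl.injEq, Fin.mk.injEq, colOf] at h1
      have hq : 0 < B ^ (i : ℕ) := Nat.pow_pos hB
      have h3 := Nat.eq_of_mul_eq_mul_left hq (Nat.add_left_cancel h1)
      have h4 : (m : ℕ) = m' := by omega
      rw [Fin.ext h4]
    · cases h1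
  have hsub : φ '' Set.univ ⊆ (slitGraph L E B N M).edgeSet := by
    rintro _ ⟨⟨i, a, m⟩, _, rfl⟩
    rw [hφ, SimpleGraph.mem_edgeSet]
    exact Or.inl ⟨_, _, rfl, rfl, (colOf_spec L E B i a m hL hB m.2).1⟩
  have h1 := Set.ncard_le_ncard hsub (Set.toFinite _)
  rw [Set.ncard_image_of_injective _ hinj, Set.ncard_univ, Nat.card_eq_fintype_card] at h1
  simpa using h1

/-- Transfer of a Turan type statement from `Fin n` to an arbitrary finite vertex set. -/
theorem transfer (C : ℝ)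
    (hC : ∀ (n k : ℕ) (P : Fin n → ℝ × ℝ) (G : SimpleGraph (Fin n)),
      1 ≤ k →
      Function.Injective P →
      (∀ a b c : Fin n, a ≠ b → b ≠ c → a ≠ c →
        ¬ Collinear ℝ ({P a, P b, P c} : Set (ℝ × ℝ))) →
      (G.edgeSet.ncard : ℝ) > C * (k : ℝ) * (n : ℝ) →
      ∃ f : ℕ → Fin n,
        (∀ i j : ℕ, i < 2 * k → j < 2 * k → f i = f j → i = j) ∧
        (∀ i : ℕ, i + 1 < 2 * k → G.Adj (f i) (f (i + 1))) ∧
        (∀ i j : ℕ, i + 1 < j → j + 1 < 2 * k →
          Disjoint (segment ℝ (P (f i)) (P (f (i + 1))))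
                   (segment ℝ (P (f j)) (P (f (j + 1))))))
    {V : Type} [Fintype V] (k : ℕ) (P : V → ℝ × ℝ) (G : SimpleGraph V) (hk : 1 ≤ k)
    (hP : Function.Injective P)
    (hgen : ∀ a b c : V, a ≠ b → b ≠ c → a ≠ c →
        ¬ Collinear ℝ ({P a, P b, P c} : Set (ℝ × ℝ)))
    (hE : (G.edgeSet.ncard : ℝ) > C * (k : ℝ) * (Fintype.card V : ℝ)) :
    ∃ f : ℕ → V,
        (∀ i j : ℕ, i < 2 * k → j < 2 * k → f i = f j → i = j) ∧
        (∀ i : ℕ, i + 1 < 2 * k → G.Adj (f i) (f (i + 1))) ∧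
        (∀ i j : ℕ, i + 1 < j → j + 1 < 2 * k →
          Disjoint (segment ℝ (P (f i)) (P (f (i + 1))))
                   (segment ℝ (P (f j)) (P (f (j + 1))))) := by
  set e : V ≃ Fin (Fintype.card V) := Fintype.equivFin V with he
  have hcard : (G.comap e.symm).edgeSet.ncard = G.edgeSet.ncard := by
    rw [← Nat.card_coe_set_eq, ← Nat.card_coe_set_eq]
    exact Nat.card_congr (SimpleGraph.Iso.mapEdgeSet (SimpleGraph.Iso.comap e.symm G))
  obtain ⟨f, f1, f2, f3⟩ := hC (Fintype.card V) k (P ∘ e.symm) (G.comap e.symm) hk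
    (hP.comp e.symm.injective)
    (fun a b c hab hbc hac => hgen _ _ _ (fun h => hab (e.symm.injective h))
      (fun h => hbc (e.symm.injective h)) (fun h => hac (e.symm.injective h)))
    (by rw [hcard]; exact hE)
  refine ⟨fun i => e.symm (f i), ?_, ?_, ?_⟩
  · intro i j hi hj hij
    exact f1 i j hi hj (e.symm.injective hij)
  · intro i hi
    exact f2 i hi
  · intro i j hij hj
    exact f3 i j hij hj

/-- The negative answer. -/
theorem main :
    ¬ (∃ C : ℝ, ∀ (n k : ℕ) (P : Fin n → ℝ × ℝ) (G : SimpleGraph (Fin n)),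
      1 ≤ k →
      Function.Injective P →
      (∀ a b c : Fin n, a ≠ b → b ≠ c → a ≠ c →
        ¬ Collinear ℝ ({P a, P b, P c} : Set (ℝ × ℝ))) →
      (G.edgeSet.ncard : ℝ) > C * (k : ℝ) * (n : ℝ) →
      ∃ f : ℕ → Fin n,
        (∀ i j : ℕ, i < 2 * k → j < 2 * k → f i = f j → i = j) ∧
        (∀ i : ℕ, i + 1 < 2 * k → G.Adj (f i) (f (i + 1))) ∧
        (∀ i j : ℕ, i + 1 < j → j + 1 < 2 * k →
          Disjoint (segment ℝ (P (f i)) (P (f (i + 1))))
                   (segment ℝ (P (f j)) (P (f (j + 1)))))) := by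
  rintro ⟨C, hC⟩
  obtain ⟨L0, hL0⟩ := exists_nat_gt (15 * C)
  set L : ℕ := L0 + 2 with hL
  have hL2 : 2 ≤ L := by omega
  have hLC : 15 * C < (L : ℝ) := by
    rw [hL]; push_cast; linarith
  set K : ℕ := 3 * L + 2 with hK
  set B : ℕ := (2 * K + 1) * (L * L) + 1 with hB
  set X : ℕ := L * L * B ^ L with hX
  set N : ℕ := X * L + X with hN
  have hB0 : 0 < B := by omega
  have hX0 : 0 < X := by
    rw [hX]
    have : 0 < B ^ L := Nat.pow_pos hB0
    positivity
  obtain ⟨P, p1, p2, p3⟩ := perturb (pos L L B N X)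
  have hedge := edges_card (L := L) (E := L) (B := B) (N := N) (M := X) (by omega) hB0
    (by rw [hN])
  have hcardV : Fintype.card (Fin N ⊕ (Fin L × Fin X)) = N + L * X := by
    simp
  have hbig : ((slitGraph L L B N X).edgeSet.ncard : ℝ) >
      C * (K : ℝ) * (Fintype.card (Fin N ⊕ (Fin L × Fin X)) : ℝ) := by
    rw [hcardV]
    have h1 : ((L * (X * (L * L)) : ℕ) : ℝ) ≤ ((slitGraph L L B N X).edgeSet.ncard : ℝ) := by
      exact_mod_cast hedge
    refine lt_of_lt_of_le ?_ h1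
    have hXr : (0 : ℝ) < (X : ℝ) := by exact_mod_cast hX0
    have hLr : (2 : ℝ) ≤ (L : ℝ) := by exact_mod_cast hL2
    have e1 : ((N + L * X : ℕ) : ℝ) = (X : ℝ) * (2 * L + 1) := by
      rw [hN]; push_cast; ring
    have e2 : (K : ℝ) = 3 * L + 2 := by rw [hK]; push_cast; ring
    rw [e1, e2]
    push_cast
    have hpos : (0 : ℝ) < (3 * L + 2) * ((X : ℝ) * (2 * L + 1)) := by positivity
    have h2 : C * (3 * (L : ℝ) + 2) * ((X : ℝ) * (2 * L + 1)) <
        ((L : ℝ) / 15) * ((3 * L + 2) * ((X : ℝ) * (2 * L + 1))) := by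
      have : C < (L : ℝ) / 15 := by linarith
      have := mul_lt_mul_of_pos_right this hpos
      linarith
    refine lt_of_lt_of_le h2 ?_
    have h3 : (3 * (L : ℝ) + 2) * (2 * L + 1) ≤ 15 * (L : ℝ) ^ 2 := by nlinarith
    have h4 : (0 : ℝ) ≤ (L : ℝ) * X := by positivity
    have h5 := mul_le_mul_of_nonneg_left h3 h4
    nlinarith [h5]
  obtain ⟨f, f1, f2, f3⟩ := transfer C hC K P (slitGraph L L B N X) (by omega) p1 p2 hbig
  exact no_path K hL2 (by omega) (by omega) (by omega) P p3 f f1 f2 f3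

end Pool.Agent.Lib.MP_832c97_co.Slit
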